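import Pool.Agent.X43.RF.D

/-!
# Free coordinates: the concrete spaces and the final forms
-/

set_option autoImplicit false

namespace Pool.Agent.X43.RF

open MeasureTheory Set Filter
open scoped ENNReal InnerProductSpace Topology
open Pool.Agent.H212R2.KLS (mu Bdd)
open Pool.Agent.H888R2.KT (LC)
open Pool.Agent.TH594.KP (GD SC full mainc gd_smul)
open Pool.Agent.TH610.RB (V P Sw G NN blk nb lev mem_blk norm_sq_P vn_eq Idx At pp gg sw card_at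
  card_blk exch cH cH_pos rs mg mg_2)
open Pool.Agent.TH597.HX.Lpp (ball_of)
open Pool.Agent.X43.KR (PI piq)

section pv

variable {q : ℕ} {Γ : Set (V (Fin q) ≃ₗᵢ[ℝ] V (Fin q))} {K : ℝ}

/-- The Poincaré inequality with the constant `K s` for the probability densities with covariance at
most `s` -/
def PVG (Γ : Set (V (Fin q) ≃ₗᵢ[ℝ] V (Fin q))) (K : ℝ) : Prop :=
  ∀ ρ : V (Fin q) → ℝ, (∀ x, 0 ≤ ρ x) → Measurable ρ →
    (∀ x y, ∀ t : ℝ, 0 < t → t < 1 → ρ x ^ (1 - t) * ρ y ^ t ≤ ρ ((1 - t) • x + t • y)) →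
    (∀ g ∈ Γ, ∀ x, ρ (g x) = ρ x) →
    (∃ R : ℝ, ∀ x, R < ‖x‖ → ρ x = 0) → mu ρ univ = 1 → ∀ s : ℝ, 0 < s →
    (∀ θ : V (Fin q), ProbabilityTheory.evariance (fun x => ⟪θ, x⟫_ℝ) (mu ρ) ≤
      ENNReal.ofReal (s * ‖θ‖ ^ 2)) →
    ∀ f : V (Fin q) → ℝ, ContDiff ℝ 1 f →
      ProbabilityTheory.variance f (mu ρ) ≤ K * s * ∫ x, ‖fderiv ℝ f x‖ ^ 2 ∂(mu ρ)

theorem pvg_pi (h : PVG Γ K) : PI Γ K := by
  intro ρ hρ hLC s hs hmom f hf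
  obtain ⟨m₀, hm₀⟩ : ∃ m₀ : ℝ, m₀ = (mu ρ univ).toReal := ⟨_, rfl⟩
  have hm0 : 0 < m₀ := by
    rw [hm₀]
    exact ENNReal.toReal_pos (by simpa using hLC.ne) hLC.fin
  have hmi : 0 ≤ m₀⁻¹ := (inv_pos.2 hm0).le
  obtain ⟨ρ', hρ'⟩ : ∃ ρ' : V (Fin q) → ℝ, ρ' = fun x => m₀⁻¹ * ρ x := ⟨_, rfl⟩
  have hGD : GD Γ ρ' := by
    rw [hρ']
    exact gd_smul hρ _ hmi
  have hmu : mu ρ' = ENNReal.ofReal m₀⁻¹ • mu ρ := by
    have h1 := Pool.Agent.H212R2.KLS.g2_mu ρ hρ.nonneg hρ.meas univ MeasurableSet.univ m₀⁻¹ hmi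
    rw [Measure.restrict_univ] at h1
    rw [hρ', ← h1]
    simp
  have hint : ∀ g : V (Fin q) → ℝ, ∫ x, g x ∂(mu ρ') = m₀⁻¹ * ∫ x, g x ∂(mu ρ) := by
    intro g
    rw [hmu, integral_smul_measure, ENNReal.toReal_ofReal hmi, smul_eq_mul]
  have hmass : mu ρ' univ = 1 := by
    rw [hmu, Measure.smul_apply, smul_eq_mul, ← ENNReal.ofReal_toReal hLC.fin, ← hm₀,
      ← ENNReal.ofReal_mul hmi, inv_mul_cancel₀ hm0.ne', ENNReal.ofReal_one]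
  have hprob : IsProbabilityMeasure (mu ρ') := ⟨hmass⟩
  have hbd : Bdd ρ' := by
    obtain ⟨R, hR⟩ := hLC.bdd
    refine ⟨R, fun x hx => ?_⟩
    rw [hρ']
    show m₀⁻¹ * ρ x = 0
    rw [hR x hx, mul_zero]
  have hball := ball_of hGD.meas hbd
  have hi : ∀ g : V (Fin q) → ℝ, Continuous g → Integrable g (mu ρ') := fun g hg =>
    Pool.Agent.H888R2.KT.G2x.intg (mu ρ') hball g hg
  have hmem : ∀ g : V (Fin q) → ℝ, Continuous g → MemLp g 2 (mu ρ') := fun g hg => by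
    refine (memLp_two_iff_integrable_sq hg.aestronglyMeasurable).2 (hi _ (hg.pow 2))
  have key := h ρ' hGD.nonneg hGD.meas hGD.logc hGD.inv hbd hmass s hs
    (by
      intro θ
      have hc : Continuous fun x : V (Fin q) => ⟪θ, x⟫_ℝ := by fun_prop
      rw [← ProbabilityTheory.ofReal_variance (hmem _ hc)]
      refine ENNReal.ofReal_le_ofReal ?_
      refine (ProbabilityTheory.variance_le_expectation_sq hc.aestronglyMeasurable).trans ?_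
      have h2 := hmom θ
      rw [← hm₀] at h2
      have h3 := mul_le_mul_of_nonneg_left h2 hmi
      have h4 : m₀⁻¹ * (s * ‖θ‖ ^ 2 * m₀) = s * ‖θ‖ ^ 2 := by
        field_simp
      rw [h4] at h3
      rw [← hint] at h3
      exact h3)
    f hf
  rw [ProbabilityTheory.variance_eq_integral hf.continuous.measurable.aemeasurable, hint] at key
  refine ⟨∫ x, f x ∂(mu ρ'), ?_⟩
  rw [hint (fun x => ‖fderiv ℝ f x‖ ^ 2)] at key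
  have h5 := mul_le_mul_of_nonneg_left key hm0.le
  calc ∫ x, (f x - ∫ y, f y ∂(mu ρ')) ^ 2 ∂(mu ρ)
      = m₀ * (m₀⁻¹ * ∫ x, (f x - ∫ y, f y ∂(mu ρ')) ^ 2 ∂(mu ρ)) := by
        rw [← mul_assoc, mul_inv_cancel₀ hm0.ne', one_mul]
    _ ≤ m₀ * (K * s * (m₀⁻¹ * ∫ x, ‖fderiv ℝ f x‖ ^ 2 ∂(mu ρ))) := h5
    _ = (m₀ * m₀⁻¹) * (K * s * ∫ x, ‖fderiv ℝ f x‖ ^ 2 ∂(mu ρ)) := by ring
    _ = _ := by rw [mul_inv_cancel₀ hm0.ne', one_mul]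

theorem pi_mono {G G' : Set (V (Fin q) ≃ₗᵢ[ℝ] V (Fin q))} {D D' : ℝ} (hG : G ⊆ G')
    (hD : D ≤ D') (h : PI G D) : PI G' D' := by
  intro ρ hρ hLC s hs hmom f hf
  obtain ⟨c, hc⟩ := h ρ ⟨hρ.nonneg, hρ.meas, hρ.logc, fun g hg => hρ.inv g (hG hg)⟩ hLC s hs hmom
    f hf
  refine ⟨c, hc.trans (mul_le_mul_of_nonneg_right ?_ (integral_nonneg fun x => by positivity))⟩
  exact mul_le_mul_of_nonneg_right hD hs.le

/-- dimension zero -/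
theorem pi0 (Γ : Set (V (Fin 0) ≃ₗᵢ[ℝ] V (Fin 0))) {D : ℝ} (hD : 0 ≤ D) : PI Γ D := by
  intro ρ _ _ s hs _ f _
  refine ⟨f 0, ?_⟩
  have h1 : ∀ x : V (Fin 0), (f x - f 0) ^ 2 = 0 := by
    intro x
    rw [Subsingleton.elim x 0, sub_self]
    norm_num
  simp only [h1, integral_zero]
  exact mul_nonneg (mul_nonneg hD hs.le) (integral_nonneg fun x => by positivity)

end pv

section conc

variable {b : ℕ} {k m : Fin b → ℕ} {q : ℕ}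

/-- the symmetric coordinates -/
def eL (κ : Type) (q : ℕ) : {i // DL κ q i} ≃ κ where
  toFun i := Sum.getLeft i.1 i.2
  invFun i := ⟨Sum.inl i, rfl⟩
  left_inv i := Subtype.ext (Sum.inl_getLeft i.1 i.2)
  right_inv _ := rfl

theorem eL_inl {κ : Type} {q : ℕ} (i : {i // DL κ q i}) : Sum.inl (eL κ q i) = i.1 :=
  Sum.inl_getLeft i.1 i.2

/-- the atom of a coordinate -/
def pJ (i : {i // DL (Idx b k m) q i}) : At b k := pp (eL _ q i)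

theorem swJ : Sw (pJ (b := b) (k := k) (m := m) (q := q)) gg := by
  intro a a' h
  obtain ⟨π, hπ⟩ := sw (m := m) a a' h
  refine ⟨((eL (Idx b k m) q).trans π).trans (eL (Idx b k m) q).symm, fun i => ?_⟩
  unfold pJ
  rw [Equiv.trans_apply, Equiv.trans_apply, Equiv.apply_symm_apply]
  exact hπ _

theorem cardJ (a : At b k) :
    (Finset.univ.filter fun i => pJ (b := b) (k := k) (m := m) (q := q) i = a).card =
      m (gg a) := by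
  rw [← card_at (m := m) a]
  refine Finset.card_equiv (eL (Idx b k m) q) fun i => ?_
  rw [Finset.mem_filter, Finset.mem_filter]
  exact ⟨fun h => ⟨Finset.mem_univ _, h.2⟩, fun h => ⟨Finset.mem_univ _, h.2⟩⟩

/-- the part with the symmetric coordinates -/
noncomputable def lv {κ : Type} (x : V (κ ⊕ Fin q)) : V κ := WithLp.toLp 2 fun i => x (Sum.inl i)

theorem norm_PJ (c : At b k) (x : V (Idx b k m ⊕ Fin q)) :
    ‖P (pJ (m := m) (q := q)) c (rs (DL (Idx b k m) q) x)‖ = ‖P pp c (lv x)‖ := by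
  rw [← sq_eq_sq₀ (norm_nonneg _) (norm_nonneg _), norm_sq_P, norm_sq_P]
  refine Fintype.sum_equiv (eL (Idx b k m) q) _ _ fun i => ?_
  have h1 : rs (DL (Idx b k m) q) x i = lv x (eL (Idx b k m) q i) := by
    show x i.1 = x (Sum.inl (eL (Idx b k m) q i))
    rw [eL_inl]
  rw [h1]
  rfl

theorem vn_J (x : V (Idx b k m ⊕ Fin q)) (β : Fin b) (j : Fin (k β)) :
    Real.sqrt (∑ i, x (Sum.inl ⟨β, j, i⟩) ^ 2) =
      ‖P (pJ (m := m) (q := q)) (⟨β, j⟩ : At b k) (rs (DL (Idx b k m) q) x)‖ := by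
  rw [norm_PJ, ← vn_eq]
  rfl

theorem cases {Γ : Set (V (Fin q) ≃ₗᵢ[ℝ] V (Fin q))}
    {e : V (Idx b k m ⊕ Fin q) ≃ₗᵢ[ℝ] V (Idx b k m ⊕ Fin q)}
    (he : e ∈ GJ (pJ (m := m)) (gg (k := k)) Γ) (x : V (Idx b k m ⊕ Fin q)) :
    (∃ F : ∀ β, Equiv.Perm (Fin (k β)),
      (∀ β j, Real.sqrt (∑ i, e x (Sum.inl ⟨β, j, i⟩) ^ 2) =
        Real.sqrt (∑ i, x (Sum.inl ⟨β, F β j, i⟩) ^ 2)) ∧
      ∀ j, e x (Sum.inr j) = x (Sum.inr j)) ∨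
    ∃ g ∈ Γ, (∀ i, e x (Sum.inl i) = x (Sum.inl i)) ∧ fr (e x) = g (fr x) := by
  rcases he with ⟨e, ⟨a, a', haa, he⟩, rfl⟩ | ⟨γ, hγ, rfl⟩
  · obtain ⟨F, hF⟩ := exch a a' haa
    refine Or.inl ⟨F, fun β j => ?_, fun j => ?_⟩
    · rw [vn_J, vn_J, rs_ext, he, hF]
    · rw [ext_apply, mg_2 _ _ _ (by simp)]
      rfl
  · exact Or.inr ⟨γ, hγ, fun i => ef_inl γ x i, fr_ef γ x⟩

/-- the class of densities -/
theorem gd_of {Γ : Set (V (Fin q) ≃ₗᵢ[ℝ] V (Fin q))} {ρ : V (Idx b k m ⊕ Fin q) → ℝ}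
    (h0 : ∀ x, 0 ≤ ρ x) (hm : Measurable ρ)
    (hl : ∀ x y, ∀ t : ℝ, 0 < t → t < 1 → ρ x ^ (1 - t) * ρ y ^ t ≤ ρ ((1 - t) • x + t • y))
    (hi : ∀ F : ∀ β, Equiv.Perm (Fin (k β)), ∀ x y : V (Idx b k m ⊕ Fin q),
      (∀ β j, Real.sqrt (∑ i, y (Sum.inl ⟨β, j, i⟩) ^ 2) =
        Real.sqrt (∑ i, x (Sum.inl ⟨β, F β j, i⟩) ^ 2)) →
      (∀ j, y (Sum.inr j) = x (Sum.inr j)) → ρ y = ρ x)
    (hf : ∀ g ∈ Γ, ∀ x y : V (Idx b k m ⊕ Fin q), (∀ i, y (Sum.inl i) = x (Sum.inl i)) →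
      fr y = g (fr x) → ρ y = ρ x) : GD (GJ (pJ (m := m)) (gg (k := k)) Γ) ρ where
  nonneg := h0
  meas := hm
  logc := hl
  inv e he x := by
    rcases cases he x with ⟨F, h1, h2⟩ | ⟨g, hg, h1, h2⟩
    · exact hi F x (e x) h1 h2
    · exact hf g hg x (e x) h1 h2

theorem set_of {Γ : Set (V (Fin q) ≃ₗᵢ[ℝ] V (Fin q))} {D : Set (V (Idx b k m ⊕ Fin q))}
    (hi : ∀ F : ∀ β, Equiv.Perm (Fin (k β)), ∀ x y : V (Idx b k m ⊕ Fin q),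
      (∀ β j, Real.sqrt (∑ i, y (Sum.inl ⟨β, j, i⟩) ^ 2) =
        Real.sqrt (∑ i, x (Sum.inl ⟨β, F β j, i⟩) ^ 2)) →
      (∀ j, y (Sum.inr j) = x (Sum.inr j)) → (x ∈ D ↔ y ∈ D))
    (hf : ∀ g ∈ Γ, ∀ x y : V (Idx b k m ⊕ Fin q), (∀ i, y (Sum.inl i) = x (Sum.inl i)) →
      fr y = g (fr x) → (x ∈ D ↔ y ∈ D)) :
    ∀ e ∈ GJ (pJ (m := m)) (gg (k := k)) Γ, ∀ x, e x ∈ D ↔ x ∈ D := by
  intro e he x
  rcases cases he x with ⟨F, h1, h2⟩ | ⟨g, hg, h1, h2⟩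
  · exact (hi F x (e x) h1 h2).symm
  · exact (hf g hg x (e x) h1 h2).symm

/-- all the hypotheses -/
structure Hyp (b : ℕ) (k m : Fin b → ℕ) (T : ℝ) (q : ℕ) (Γ : Set (V (Fin q) ≃ₗᵢ[ℝ] V (Fin q)))
    (K : ℝ) : Prop where
  hk : ∀ β, 1 ≤ k β
  hm : ∀ β, 1 ≤ m β
  hT0 : 0 ≤ T
  hT : ∑ β, Real.exp (-(T * (k β * m β))) ≤ 1
  hK : 1 ≤ K
  kls : (q : ℝ) ≤ K ∨ PVG Γ K

theorem scJ : ∃ C : ℝ, 1 ≤ C ∧ ∀ (b : ℕ) (k m : Fin b → ℕ) (T : ℝ) (q : ℕ)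
    (Γ : Set (V (Fin q) ≃ₗᵢ[ℝ] V (Fin q))) (K : ℝ), Hyp b k m T q Γ K →
    SC (GJ (pJ (m := m)) (gg (k := k)) Γ) (C * (1 + T) ^ 2 * K) := by
  obtain ⟨C₀, hC₀, Hq⟩ := piq
  have hCF := CF_one
  refine ⟨CF * C₀, one_le_mul_of_one_le_of_one_le hCF hC₀, ?_⟩
  intro b k m T q Γ K hyp
  have hK := hyp.hK
  have hK0 : 0 < K := by linarith
  have hC00 : 0 < C₀ := by linarith
  have hPI : PI Γ (C₀ * K) := by
    rcases hyp.kls with h | h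
    · rcases Nat.eq_zero_or_pos q with h0 | h0
      · subst h0
        exact pi0 Γ (by positivity)
      · exact pi_mono (empty_subset _) (mul_le_mul_of_nonneg_left h hC00.le) (Hq q h0)
    · exact pi_mono subset_rfl (by nlinarith) (pvg_pi h)
  have hnb : ∀ β, nb (gg (k := k)) m β = k β * m β := fun β => by
    unfold nb
    rw [card_blk]
  have key := coreJ Γ (swJ (m := m) (q := q)) m cardJ (fun β => by
    rw [hnb]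
    exact Nat.mul_pos (hyp.hk β) (hyp.hm β)) T hyp.hT0 (by
    refine le_trans (le_of_eq (Finset.sum_congr rfl fun β _ => ?_)) hyp.hT
    rw [hnb]
    push_cast
    rfl) (one_le_mul_of_one_le_of_one_le hC₀ hK) hPI
  have e : CF * (1 + T) ^ 2 * (C₀ * K) = CF * C₀ * (1 + T) ^ 2 * K := by ring
  rw [e] at key
  exact key

/-- the weak Poincare inequality, second moments, invariance under all isometries which preserve a
set `D` invariant under the isometries of the class -/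
theorem weakJ : ∃ C : ℝ, 1 ≤ C ∧ ∀ (b : ℕ) (k m : Fin b → ℕ) (T : ℝ) (q : ℕ)
    (Γ : Set (V (Fin q) ≃ₗᵢ[ℝ] V (Fin q))) (K : ℝ), Hyp b k m T q Γ K →
    ∀ D : Set (V (Idx b k m ⊕ Fin q)),
    (∀ e ∈ GJ (pJ (m := m)) (gg (k := k)) Γ, ∀ x, e x ∈ D ↔ x ∈ D) →
    ∀ ρ : V (Idx b k m ⊕ Fin q) → ℝ, (∀ x, 0 ≤ ρ x) → Measurable ρ →
    (∀ x y, ∀ t : ℝ, 0 < t → t < 1 → ρ x ^ (1 - t) * ρ y ^ t ≤ ρ ((1 - t) • x + t • y)) →
    (∀ e : V (Idx b k m ⊕ Fin q) ≃ₗᵢ[ℝ] V (Idx b k m ⊕ Fin q), (∀ x, e x ∈ D ↔ x ∈ D) →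
      ∀ x, ρ (e x) = ρ x) →
    mu ρ univ = 1 → ∀ s : ℝ, 0 < s → (∀ θ : V (Idx b k m ⊕ Fin q),
      ∫⁻ x, ENNReal.ofReal (⟪θ, x⟫_ℝ ^ 2) ∂(mu ρ) ≤ ENNReal.ofReal (s * ‖θ‖ ^ 2)) →
    ∀ v : V (Idx b k m ⊕ Fin q) → ℝ, ContDiff ℝ 1 v → (∀ x, |v x| ≤ 1) →
    ENNReal.ofReal ((∫ x, (v x - ∫ y, v y ∂(mu ρ)) ^ 2 ∂(mu ρ)) ^ 2) ≤
      ENNReal.ofReal (C * (1 + T) ^ 2 * K * s) *
        ∫⁻ x, ENNReal.ofReal (‖fderiv ℝ v x‖ ^ 2) ∂(mu ρ) := by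
  obtain ⟨C, hC, H⟩ := scJ
  refine ⟨8 * C, by linarith, ?_⟩
  intro b k m T q Γ K hyp D hD ρ hnn hmeas hlc hiso h1 s hs hmom v hv hvb
  have hG : GD (GJ (pJ (m := m)) (gg (k := k)) Γ) ρ :=
    ⟨hnn, hmeas, hlc, fun g hg x => hiso g (hD g hg) x⟩
  have hT0 := hyp.hT0
  have hK := hyp.hK
  have hpos : 0 < C * (1 + T) ^ 2 * K := by positivity
  have key := mainc hpos (H b k m T q Γ K hyp) ρ hG h1 s hs hmom v hv hvb
  have e : 8 * (C * (1 + T) ^ 2 * K) * s = 8 * C * (1 + T) ^ 2 * K * s := by ring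
  rw [e] at key
  exact key

/-- the Poincare type bounds, covariance -/
theorem fullJ : ∃ C : ℝ, 1 ≤ C ∧ ∀ (b : ℕ) (k m : Fin b → ℕ) (T : ℝ) (q : ℕ)
    (Γ : Set (V (Fin q) ≃ₗᵢ[ℝ] V (Fin q))) (K : ℝ), Hyp b k m T q Γ K →
    ∀ ρ : V (Idx b k m ⊕ Fin q) → ℝ, GD (GJ (pJ (m := m)) (gg (k := k)) Γ) ρ → mu ρ univ = 1 →
    ∀ s : ℝ, 0 < s → (∀ θ : V (Idx b k m ⊕ Fin q),
      ProbabilityTheory.evariance (fun x => ⟪θ, x⟫_ℝ) (mu ρ) ≤ ENNReal.ofReal (s * ‖θ‖ ^ 2)) →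
    ∀ f : V (Idx b k m ⊕ Fin q) → ℝ, ContDiff ℝ 1 f →
    ((∀ x, ‖fderiv ℝ f x‖ ≤ 1) → MemLp f 2 (mu ρ) ∧
      ProbabilityTheory.variance f (mu ρ) ≤ C * (1 + T) ^ 2 * K * s) ∧
    ((∀ x, |f x| ≤ 1) → ENNReal.ofReal (ProbabilityTheory.variance f (mu ρ) ^ 2) ≤
      ENNReal.ofReal (C * (1 + T) ^ 2 * K * s) *
        ∫⁻ x, ENNReal.ofReal (‖fderiv ℝ f x‖ ^ 2) ∂(mu ρ)) := by
  obtain ⟨C, hC, H⟩ := scJ
  refine ⟨8 * C, by linarith, ?_⟩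
  intro b k m T q Γ K hyp ρ hρ h1 s hs hcov f hf
  have hT0 := hyp.hT0
  have hK := hyp.hK
  have hpos : 0 < C * (1 + T) ^ 2 * K := by positivity
  have key := full hpos (H b k m T q Γ K hyp) ρ hρ h1 s hs hcov f hf
  have e : 8 * (C * (1 + T) ^ 2 * K) * s = 8 * C * (1 + T) ^ 2 * K * s := by ring
  rw [e] at key
  exact key

end conc

end Pool.Agent.X43.RF
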