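import Pool.Agent.X43.KR.Fin
import Pool.Agent.TH610.RB.Spec

/-!
# Free coordinates: extension of isometries, slices, the Hardy inequality and the tails
-/

set_option autoImplicit false

namespace Pool.Agent.X43.RF

open MeasureTheory Set Filter
open scoped ENNReal InnerProductSpace Topology
open Pool.Agent.H212R2.KLS (mu Bdd)
open Pool.Agent.H888R2.KT (LC St tw)
open Pool.Agent.TH594.KP (GD)
open Pool.Agent.TH610.RB

section ext

variable {J : Type} [Fintype J] (D : J → Prop) [DecidablePred D]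

/-- the restriction to the free coordinates -/
noncomputable def rs2 : V J →ₗ[ℝ] V {i // ¬ D i} where
  toFun x := WithLp.toLp 2 fun i => x i.1
  map_add' x y := by ext i; simp
  map_smul' c x := by ext i; simp

omit [Fintype J] in
theorem mg_rs (x : V J) : mg D (rs D x, rs2 D x) = x := by
  ext i
  by_cases h : D i
  · rw [mg_1 D _ i h]
    rfl
  · rw [mg_2 D _ i h]
    rfl

omit [Fintype J] in
theorem rs2_mg (x : V {i // D i}) (y : V {i // ¬ D i}) : rs2 D (mg D (x, y)) = y := by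
  ext i
  exact mg_2 D (x, y) i.1 i.2

theorem norm_rs (x : V J) : ‖x‖ ^ 2 = ‖rs D x‖ ^ 2 + ‖rs2 D x‖ ^ 2 := by
  have h := norm_mg D (rs D x, rs2 D x)
  rw [mg_rs] at h
  exact h

/-- the extension of an isometry -/
noncomputable def extL (e : V {i // D i} ≃ₗᵢ[ℝ] V {i // D i}) : V J →ₗᵢ[ℝ] V J where
  toFun x := mg D (e (rs D x), rs2 D x)
  map_add' x y := by
    ext i
    by_cases h : D i
    · rw [mg_1 D _ i h, PiLp.add_apply, mg_1 D _ i h, mg_1 D _ i h, map_add, map_add]
      rfl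
    · rw [mg_2 D _ i h, PiLp.add_apply, mg_2 D _ i h, mg_2 D _ i h, map_add]
      rfl
  map_smul' c x := by
    ext i
    by_cases h : D i
    · rw [mg_1 D _ i h, PiLp.smul_apply, mg_1 D _ i h, map_smul, map_smul]
      rfl
    · rw [mg_2 D _ i h, PiLp.smul_apply, mg_2 D _ i h, map_smul]
      rfl
  norm_map' x := by
    show ‖mg D (e (rs D x), rs2 D x)‖ = ‖x‖
    rw [← sq_eq_sq₀ (norm_nonneg _) (norm_nonneg _), norm_mg, norm_rs D x]
    simp only [e.norm_map]

noncomputable def ext (e : V {i // D i} ≃ₗᵢ[ℝ] V {i // D i}) : V J ≃ₗᵢ[ℝ] V J :=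
  (extL D e).toLinearIsometryEquiv rfl

theorem ext_apply (e : V {i // D i} ≃ₗᵢ[ℝ] V {i // D i}) (x : V J) :
    ext D e x = mg D (e (rs D x), rs2 D x) := by
  unfold ext
  rw [LinearIsometry.coe_toLinearIsometryEquiv]
  rfl

theorem ext_mg (e : V {i // D i} ≃ₗᵢ[ℝ] V {i // D i}) (x : V {i // D i}) (z : V {i // ¬ D i}) :
    ext D e (mg D (x, z)) = mg D (e x, z) := by
  rw [ext_apply, rs_mg, rs2_mg]

theorem rs_ext (e : V {i // D i} ≃ₗᵢ[ℝ] V {i // D i}) (x : V J) :
    rs D (ext D e x) = e (rs D x) := by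
  rw [ext_apply, rs_mg]

theorem rs2_ext (e : V {i // D i} ≃ₗᵢ[ℝ] V {i // D i}) (x : V J) :
    rs2 D (ext D e x) = rs2 D x := by
  rw [ext_apply, rs2_mg]

omit [Fintype J] in
theorem mg_add (x : V {i // D i}) (z : V {i // ¬ D i}) :
    mg D (x, z) = mg D (x, 0) + mg D (0, z) := by
  have h := mg_lin D 1 1 x 0 0 z
  simpa using h

/-- the inclusion of the symmetric coordinates -/
noncomputable def inc : V {i // D i} →ₗᵢ[ℝ] V J where
  toFun x := mg D (x, 0)
  map_add' x y := by
    have h := mg_lin D 1 1 x y 0 0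
    simpa using h
  map_smul' c x := by
    have h := mg_lin D c 0 x 0 0 0
    simpa using h
  norm_map' x := by
    show ‖mg D (x, 0)‖ = ‖x‖
    rw [← sq_eq_sq₀ (norm_nonneg _) (norm_nonneg _), norm_mg]
    simp

variable {ρ : V J → ℝ} {G : Set (V {i // D i} ≃ₗᵢ[ℝ] V {i // D i})}

/-- the slices of the density -/
theorem slice_gd (hρ : GD (ext D '' G) ρ) (z : V {i // ¬ D i}) :
    GD G (fun x => ρ (mg D (x, z))) where
  nonneg x := hρ.nonneg _
  meas := hρ.meas.comp ((mg_mp D).measurable.comp (measurable_id.prodMk measurable_const))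
  logc x y t ht0 ht1 := by
    have h1 := hρ.logc (mg D (x, z)) (mg D (y, z)) t ht0 ht1
    rw [← mg_lin] at h1
    have h2 : (1 - t) • z + t • z = z := by rw [← add_smul]; simp
    rw [h2] at h1
    exact h1
  inv e he x := by
    show ρ (mg D (e x, z)) = ρ (mg D (x, z))
    rw [← ext_mg]
    exact hρ.inv _ ⟨e, he, rfl⟩ _

/-- integration over the slices -/
theorem lint_mg (hm : Measurable ρ) (F : V J → ℝ≥0∞) (hF : Measurable F) :
    ∫⁻ x, F x ∂(mu ρ) = ∫⁻ z : V {i // ¬ D i}, ∫⁻ x, F (mg D (x, z))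
      ∂(mu (fun x => ρ (mg D (x, z)))) := by
  have hm' : Measurable fun x => ENNReal.ofReal (ρ x) := hm.ennreal_ofReal
  have h1 : ∫⁻ x, F x ∂(mu ρ) = ∫⁻ x, ENNReal.ofReal (ρ x) * F x := by
    unfold mu
    rw [lintegral_withDensity_eq_lintegral_mul _ hm' hF]
    rfl
  have hmF : Measurable fun x => ENNReal.ofReal (ρ x) * F x := hm'.mul hF
  have h2 := lintegral_prod_symm' (μ := (volume : Measure (V {i // D i})))
    (ν := (volume : Measure (V {i // ¬ D i})))
    (fun z => ENNReal.ofReal (ρ (mg D z)) * F (mg D z)) (hmF.comp (mg_mp D).measurable)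
  rw [h1, ← (mg_mp D).lintegral_comp hmF, h2]
  refine lintegral_congr fun z => ?_
  have hmz : Measurable fun x : V {i // D i} => mg D (x, z) :=
    (mg_mp D).measurable.comp (measurable_id.prodMk measurable_const)
  have h3 := lintegral_withDensity_eq_lintegral_mul (volume : Measure (V {i // D i}))
    (hm'.comp hmz) (hF.comp hmz)
  exact h3.symm

end ext

section hardy

variable {J : Type} [Fintype J] [DecidableEq J] (D : J → Prop) [DecidablePred D]
variable {A B : Type} [Fintype A] [DecidableEq A] [DecidableEq B]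
variable {p : {i // D i} → A} {g : A → B} {ρ : V J → ℝ}

/-- Hardy inequality on a level set, without free coordinates (from `RB.loc`) -/
theorem hodd {κ : Type} [Fintype κ] [DecidableEq κ] {p : κ → A} {g : A → B} {ρ : V κ → ℝ}
    (hD : GD (G p g) ρ) (hLC : LC ρ) (hSw : Sw p g) (m : B → ℕ)
    (hm : ∀ a, (Finset.univ.filter fun i => p i = a).card = m (g a)) (a : ℝ) (ha : 0 < a)
    (hsupp : ∀ x, ρ x ≠ 0 → x ∈ lev p g m a) :
    ∀ i, ∀ f : V κ → ℝ, ContDiff ℝ 1 f → (∀ x, f (rf i x) = - f x) →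
      ∫ x, f x ^ 2 ∂(mu ρ) ≤ cH * a ^ 2 * ∫ x, ‖fderiv ℝ f x‖ ^ 2 ∂(mu ρ) := by
  intro i f hf ho
  obtain ⟨S, hS⟩ : ∃ S : Finset A, S = blk g (g (p i)) := ⟨_, rfl⟩
  have hiS : p i ∈ S := by rw [hS, mem_blk]
  have hdm : ∀ c, dm p c = m (g c) := fun c => by
    unfold dm
    rw [hm]
  have hm1 := dm_ge (p := p) i
  rw [hdm] at hm1
  refine Pool.Agent.TH610.RB.hardy hD hLC hSw a ha i (S.erase (p i)) (Finset.notMem_erase _ _)
    (fun d hd => ?_) (fun d hd => ?_) (fun x hx => ?_) f hf ho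
  · have h2 := Finset.mem_of_mem_erase hd
    rw [hS, mem_blk] at h2
    exact h2.symm
  · have h2 := Finset.mem_of_mem_erase hd
    rw [hS, mem_blk] at h2
    rw [hdm, hdm, h2]
  · have h2 := hsupp x hx (g (p i))
    rw [hdm]
    have h3 : ‖P p (p i) x‖ + nS p (S.erase (p i)) x = nS p S x := by
      unfold nS
      exact Finset.add_sum_erase S (fun c => ‖P p c x‖) hiS
    have h4 : (((S.erase (p i)).card : ℝ) + 1) = S.card := by
      exact_mod_cast Finset.card_erase_add_one hiS
    rw [h3, h4]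
    have h5 : 0 < Real.sqrt (m (g (p i))) := Real.sqrt_pos.2 (by linarith)
    have h6 : Real.sqrt (m (g (p i))) * nS p S x ≤
        Real.sqrt (m (g (p i))) * (a * Real.sqrt (m (g (p i))) * S.card) := by
      have h7 : Real.sqrt (m (g (p i))) * (a * Real.sqrt (m (g (p i))) * S.card) =
          a * (S.card * (Real.sqrt (m (g (p i))) * Real.sqrt (m (g (p i))))) := by ring
      rw [h7, Real.mul_self_sqrt (Nat.cast_nonneg _)]
      unfold NN nb at h2
      rw [← hS] at h2
      push_cast at h2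
      exact h2
    exact le_of_mul_le_mul_left h6 h5

theorem rf_mg (i : {i // D i}) (x : V {i // D i}) (z : V {i // ¬ D i}) :
    rf i.1 (mg D (x, z)) = mg D (rf i x, z) := by
  ext j
  rw [rf_apply]
  by_cases h : D j
  · rw [mg_1 D _ j h, mg_1 D _ j h, rf_apply]
    by_cases h2 : j = i.1
    · rw [if_pos h2, if_pos (Subtype.ext h2)]
    · rw [if_neg h2, if_neg (fun h3 => h2 (congrArg Subtype.val h3))]
  · rw [mg_2 D _ j h, mg_2 D _ j h, if_neg]
    intro h2
    exact h (h2 ▸ i.2)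

theorem fd_slice (f : V J → ℝ) (hf : ContDiff ℝ 1 f) (z : V {i // ¬ D i}) :
    ContDiff ℝ 1 (fun x => f (mg D (x, z))) ∧
      ∀ x, ‖fderiv ℝ (fun x => f (mg D (x, z))) x‖ ≤ ‖fderiv ℝ f (mg D (x, z))‖ := by
  have e1 : ∀ x, mg D (x, z) = inc D x + mg D (0, z) := fun x => mg_add D x z
  have hc : ContDiff ℝ 1 fun x : V {i // D i} => inc D x + mg D (0, z) :=
    (inc D).contDiff.add contDiff_const
  have e2 : (fun x => f (mg D (x, z))) = fun x => f (inc D x + mg D (0, z)) :=
    funext fun x => by rw [e1]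
  refine ⟨by rw [e2]; exact hf.comp hc, fun x => ?_⟩
  rw [e2]
  have h1 : HasFDerivAt (fun x : V {i // D i} => inc D x + mg D (0, z))
      (inc D).toContinuousLinearMap x :=
    ((inc D).toContinuousLinearMap.hasFDerivAt (x := x)).add_const _
  have h2 : HasFDerivAt f (fderiv ℝ f (inc D x + mg D (0, z))) (inc D x + mg D (0, z)) :=
    (hf.differentiable one_ne_zero _).hasFDerivAt
  have h3 := h2.comp x h1
  have h4 : fderiv ℝ (fun x => f (inc D x + mg D (0, z))) x =
      (fderiv ℝ f (inc D x + mg D (0, z))).comp (inc D).toContinuousLinearMap := h3.fderiv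
  rw [h4, e1 x]
  refine (ContinuousLinearMap.opNorm_comp_le _ _).trans ?_
  have h5 : ‖(inc D).toContinuousLinearMap‖ ≤ 1 := (inc D).norm_toContinuousLinearMap_le
  exact mul_le_of_le_one_right (norm_nonneg (fderiv ℝ f (inc D x + mg D (0, z)))) h5

/-- Hardy inequality with free coordinates -/
theorem hardyJ (hρ : GD (ext D '' G p g) ρ) (hLC : LC ρ) (hSw : Sw p g) (m : B → ℕ)
    (hm : ∀ a, (Finset.univ.filter fun i => p i = a).card = m (g a)) (a : ℝ) (ha : 0 < a)
    (hsupp : ∀ x, ρ x ≠ 0 → rs D x ∈ lev p g m a) (i : {i // D i}) (f : V J → ℝ)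
    (hf : ContDiff ℝ 1 f) (ho : ∀ x, f (rf i.1 x) = - f x) :
    ∫ x, f x ^ 2 ∂(mu ρ) ≤ cH * a ^ 2 * ∫ x, ‖fderiv ℝ f x‖ ^ 2 ∂(mu ρ) := by
  have hcH := cH_pos
  have hfi : IsFiniteMeasure (mu ρ) := ⟨lt_top_iff_ne_top.2 hLC.fin⟩
  have hball := Pool.Agent.TH597.HX.Lpp.ball_of hLC.meas hLC.bdd
  have hcf : Continuous fun x => f x ^ 2 := hf.continuous.pow 2
  have hcg : Continuous fun x => ‖fderiv ℝ f x‖ ^ 2 :=
    ((hf.continuous_fderiv one_ne_zero).norm).pow 2
  have i1 := intg (mu ρ) hball _ hcf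
  have i2 := intg (mu ρ) hball _ hcg
  have key : ∫⁻ x, ENNReal.ofReal (f x ^ 2) ∂(mu ρ) ≤
      ENNReal.ofReal (cH * a ^ 2) * ∫⁻ x, ENNReal.ofReal (‖fderiv ℝ f x‖ ^ 2) ∂(mu ρ) := by
    rw [lint_mg D hLC.meas _ hcf.measurable.ennreal_ofReal,
      lint_mg D hLC.meas _ hcg.measurable.ennreal_ofReal]
    have hmass : ∀ᵐ z : V {i // ¬ D i}, mu (fun x => ρ (mg D (x, z))) univ < ⊤ := by
      have h1 := lint_mg D hLC.meas (fun _ => (1 : ℝ≥0∞)) measurable_const
      simp only [lintegral_const, one_mul] at h1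
      have h2 : Measurable fun z : V {i // ¬ D i} => mu (fun x => ρ (mg D (x, z))) univ := by
        have h3 : Measurable fun z : V {i // D i} × V {i // ¬ D i} =>
            ENNReal.ofReal (ρ (mg D z)) := (hLC.meas.comp (mg_mp D).measurable).ennreal_ofReal
        have h4 := h3.lintegral_prod_left' (μ := (volume : Measure (V {i // D i})))
        have h5 : (fun z : V {i // ¬ D i} => mu (fun x => ρ (mg D (x, z))) univ) =
            fun z => ∫⁻ x : V {i // D i}, ENNReal.ofReal (ρ (mg D (x, z))) := by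
          funext z
          unfold mu
          rw [withDensity_apply _ MeasurableSet.univ, Measure.restrict_univ]
        rw [h5]
        exact h4
      refine ae_lt_top h2 ?_
      rw [← h1]
      exact hLC.fin
    rw [← lintegral_const_mul' _ _ ENNReal.ofReal_ne_top]
    refine lintegral_mono_ae ?_
    filter_upwards [hmass] with z hz
    obtain ⟨hfz, hgz⟩ := fd_slice D f hf z
    by_cases hne : mu (fun x => ρ (mg D (x, z))) = 0
    · rw [hne]
      simp
    have hgd := slice_gd D hρ z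
    have hbd : Bdd fun x => ρ (mg D (x, z)) := by
      obtain ⟨R, hR⟩ := hLC.bdd
      exact ⟨R, fun x hx => hR _ (lt_of_lt_of_le hx (le_norm_mg D x z))⟩
    have hLCz : LC fun x => ρ (mg D (x, z)) :=
      ⟨hgd.nonneg, hgd.meas, hgd.logc, hbd, hz.ne, hne⟩
    have hfi' : IsFiniteMeasure (mu fun x => ρ (mg D (x, z))) := ⟨hz⟩
    have hball' := Pool.Agent.TH597.HX.Lpp.ball_of hLCz.meas hLCz.bdd
    have h1 := hodd hgd hLCz hSw m hm a ha (fun x hx => by
      have := hsupp _ hx
      rwa [rs_mg] at this) i (fun x => f (mg D (x, z))) hfz (fun x => by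
      show f (mg D (rf i x, z)) = _
      rw [← rf_mg]
      exact ho _)
    have hc1 : Continuous fun x => f (mg D (x, z)) ^ 2 := hfz.continuous.pow 2
    have hc2 : Continuous fun x => ‖fderiv ℝ (fun x => f (mg D (x, z))) x‖ ^ 2 :=
      ((hfz.continuous_fderiv one_ne_zero).norm).pow 2
    have j1 := intg _ hball' _ hc1
    have j2 := intg _ hball' _ hc2
    rw [← ofReal_integral_eq_lintegral_ofReal j1 (ae_of_all _ fun x => sq_nonneg _)]
    refine (ENNReal.ofReal_le_ofReal h1).trans ?_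
    rw [ENNReal.ofReal_mul (by positivity),
      ofReal_integral_eq_lintegral_ofReal j2 (ae_of_all _ fun x => sq_nonneg _)]
    refine mul_le_mul_right (lintegral_mono fun x => ENNReal.ofReal_le_ofReal ?_) _
    exact pow_le_pow_left₀ (norm_nonneg _) (hgz x) 2
  rw [← ofReal_integral_eq_lintegral_ofReal i1 (ae_of_all _ fun x => sq_nonneg _),
    ← ofReal_integral_eq_lintegral_ofReal i2 (ae_of_all _ fun x => sq_nonneg _),
    ← ENNReal.ofReal_mul (by positivity)] at key
  exact (ENNReal.ofReal_le_ofReal_iff (mul_nonneg (by positivity)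
    (integral_nonneg fun x => by positivity))).1 key

end hardy

end Pool.Agent.X43.RF
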