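import Pool.Agent.X43.RF.A

/-!
# Free coordinates: the Poincaré inequality for the tilted densities
-/

set_option autoImplicit false

namespace Pool.Agent.X43.RF

open MeasureTheory Set Filter
open scoped ENNReal InnerProductSpace Topology
open Pool.Agent.H212R2.KLS (mu Bdd)
open Pool.Agent.H888R2.KT (LC St tw gs pst hs)
open Pool.Agent.H888R2.KT
open Pool.Agent.H888R2.KT.N9x
open Pool.Agent.H888R2.KT.G2x (integral_mu_mul)
open Pool.Agent.TH594.KP (GD gd_tilt tilt_st)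
open Pool.Agent.TH610.RB hiding mu_indicator intg mu_mono gd_map gd_indicator gd_ball gd_smul
open Pool.Agent.X43.KR (lc_tilt)

variable {κ : Type} [Fintype κ] [DecidableEq κ] {q : ℕ}

/-- the symmetric coordinates -/
abbrev DL (κ : Type) (q : ℕ) : κ ⊕ Fin q → Prop := fun i => i.isLeft = true

/-- the free directions -/
noncomputable def fe (κ : Type) [Fintype κ] [DecidableEq κ] {q : ℕ} (j : Fin q) : V (κ ⊕ Fin q) :=
  EuclideanSpace.single (Sum.inr j) (1 : ℝ)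

theorem fe_orth : Orthonormal ℝ (fe κ (q := q)) :=
  EuclideanSpace.orthonormal_single.comp _ Sum.inr_injective

theorem ext_fe (e : V {i // DL κ q i} ≃ₗᵢ[ℝ] V {i // DL κ q i}) (j : Fin q) :
    ext (DL κ q) e (fe κ j) = fe κ j := by
  have h1 : rs (DL κ q) (fe κ j) = 0 := by
    ext ⟨i, hi⟩
    show fe κ j i = 0
    unfold fe
    rw [EuclideanSpace.single_apply, if_neg]
    intro h
    rw [h] at hi
    exact absurd hi (by simp)
  rw [ext_apply, h1, map_zero, ← h1, mg_rs]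

/-- functions even in the symmetric coordinates -/
theorem evenJ {ρ : V (κ ⊕ Fin q) → ℝ} (hρ : LC ρ) (K : ℝ) (hK : 0 < K)
    (hSt : St (fe κ (q := q)) K ρ) (hrf : ∀ (i : κ) x, ρ (rf (Sum.inl i) x) = ρ x) (L : ℝ)
    (hLK : L ≤ K) (hL : 0 ≤ L)
    (hodd : ∀ i : κ, ∀ f : V (κ ⊕ Fin q) → ℝ, ContDiff ℝ 1 f →
      (∀ x, f (rf (Sum.inl i) x) = - f x) →
      ∫ x, f x ^ 2 ∂(mu ρ) ≤ L * ∫ x, ‖fderiv ℝ f x‖ ^ 2 ∂(mu ρ))
    (u : V (κ ⊕ Fin q) → ℝ) (hu0 : ContDiff ℝ 1 u)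
    (heu : ∀ (i : κ) x, u (rf (Sum.inl i) x) = u x) :
    ∃ c : ℝ, ∫ x, (u x - c) ^ 2 ∂(mu ρ) ≤ 4 * K * ∫ x, ‖fderiv ℝ u x‖ ^ 2 ∂(mu ρ) := by
  refine Pool.Agent.W124.SX.iter hρ (fe κ) fe_orth K hK hSt K le_rfl
    {u | ∀ (i : κ) x, u (rf (Sum.inl i) x) = u x} ?_ ?_ u heu hu0
  · intro u hu _ i x
    exact equiv hρ K (rf (Sum.inl i)) (hrf i) u (hu i) x
  · intro u hu hu1
    obtain ⟨h1, -⟩ := key hρ (fe κ) fe_orth K hK hSt K hK u hu1
    have hev : ∀ (i : κ) x, gs K (pst K ρ u) (rf (Sum.inl i) x) = gs K (pst K ρ u) x :=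
      fun i x => equiv hρ K (rf (Sum.inl i)) (hrf i) u (hu i) x
    generalize gs K (pst K ρ u) = v at h1 hev
    have hdi : ∀ i : κ ⊕ Fin q,
        ContDiff ℝ 1 (fun z => fderiv ℝ v z (EuclideanSpace.single i (1 : ℝ))) :=
      fun i => (h1.fderiv_right (m := 1) (by norm_num)).clm_apply contDiff_const
    have e1 : ∫ x, (‖fderiv ℝ v x‖ ^ 2 - ∑ j, (fderiv ℝ v x (fe κ j)) ^ 2) ∂(mu ρ) =
        ∑ i : κ, ∫ x, (fderiv ℝ v x (EuclideanSpace.single (Sum.inl i) 1)) ^ 2 ∂(mu ρ) := by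
      rw [← integral_finsetSum]
      · refine integral_congr_ae (Filter.Eventually.of_forall fun x => ?_)
        show ‖fderiv ℝ v x‖ ^ 2 - ∑ j, (fderiv ℝ v x (fe κ j)) ^ 2 = _
        rw [Pool.Agent.H888R2.KT.N8x.norm_sq_clm (fderiv ℝ v x), Fintype.sum_sum_type]
        unfold fe
        ring
      · intro i _
        exact int_cont hρ ((hdi (Sum.inl i)).continuous.pow 2)
    have e2 : ∑ i : κ, ∫ x,
        ‖fderiv ℝ (fun z => fderiv ℝ v z (EuclideanSpace.single (Sum.inl i) 1)) x‖ ^ 2 ∂(mu ρ) ≤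
        ∫ x, hs v x ∂(mu ρ) := by
      rw [← integral_finsetSum]
      · refine integral_mono ?_ (int_cont hρ (hs_cont h1)) fun x => ?_
        · refine integrable_finsetSum _ fun i _ => int_cont hρ (grad_cont (hdi (Sum.inl i)))
        · show _ ≤ hs v x
          rw [hs_eq, Fintype.sum_sum_type]
          have : 0 ≤ ∑ j : Fin q,
              ‖fderiv ℝ (fun z => fderiv ℝ v z (EuclideanSpace.single (Sum.inr j) 1)) x‖ ^ 2 :=
            Finset.sum_nonneg fun j _ => sq_nonneg _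
          linarith
      · intro i _
        exact int_cont hρ (grad_cont (hdi (Sum.inl i)))
    have e3 : ∑ i : κ, ∫ x, (fderiv ℝ v x (EuclideanSpace.single (Sum.inl i) 1)) ^ 2 ∂(mu ρ) ≤
        L * ∑ i : κ, ∫ x,
        ‖fderiv ℝ (fun z => fderiv ℝ v z (EuclideanSpace.single (Sum.inl i) 1)) x‖ ^ 2
          ∂(mu ρ) := by
      rw [Finset.mul_sum]
      refine Finset.sum_le_sum fun i _ => ?_
      exact hodd i _ (hdi (Sum.inl i)) (fun z => odd_dir v h1 (Sum.inl i) (hev i) z)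
    have h0 : 0 ≤ ∫ x, hs v x ∂(mu ρ) := integral_nonneg fun x => by
      unfold Pool.Agent.H888R2.KT.hs
      positivity
    calc ∫ x, (‖fderiv ℝ v x‖ ^ 2 - ∑ j, (fderiv ℝ v x (fe κ j)) ^ 2) ∂(mu ρ)
        ≤ L * ∫ x, hs v x ∂(mu ρ) := by
          rw [e1]
          exact e3.trans (mul_le_mul_of_nonneg_left e2 hL)
      _ ≤ K * ∫ x, hs v x ∂(mu ρ) := mul_le_mul_of_nonneg_right hLK h0

/-- from odd and even functions to all functions -/
theorem parJ {ρ : V (κ ⊕ Fin q) → ℝ} (hρ : LC ρ) (K : ℝ) (hK : 0 < K)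
    (hSt : St (fe κ (q := q)) K ρ) (hrf : ∀ (i : κ) x, ρ (rf (Sum.inl i) x) = ρ x) (L : ℝ)
    (hLK : L ≤ K) (hL : 0 ≤ L)
    (hodd : ∀ i : κ, ∀ f : V (κ ⊕ Fin q) → ℝ, ContDiff ℝ 1 f →
      (∀ x, f (rf (Sum.inl i) x) = - f x) →
      ∫ x, f x ^ 2 ∂(mu ρ) ≤ L * ∫ x, ‖fderiv ℝ f x‖ ^ 2 ∂(mu ρ))
    (f : V (κ ⊕ Fin q) → ℝ) (hf : ContDiff ℝ 1 f) :
    ∃ c : ℝ, ∫ x, (f x - c) ^ 2 ∂(mu ρ) ≤ 4 * K * ∫ x, ‖fderiv ℝ f x‖ ^ 2 ∂(mu ρ) := by
  have hodd4 : ∀ i : κ, ∀ f : V (κ ⊕ Fin q) → ℝ, ContDiff ℝ 1 f →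
      (∀ x, f (rf (Sum.inl i) x) = - f x) →
      ∫ x, f x ^ 2 ∂(mu ρ) ≤ 4 * K * ∫ x, ‖fderiv ℝ f x‖ ^ 2 ∂(mu ρ) := by
    intro i f hf ho
    have h1 : 0 ≤ ∫ x, ‖fderiv ℝ f x‖ ^ 2 ∂(mu ρ) := integral_nonneg fun x => sq_nonneg _
    refine (hodd i f hf ho).trans (mul_le_mul_of_nonneg_right (by linarith) h1)
  have main : ∀ S : Finset κ, ∀ f : V (κ ⊕ Fin q) → ℝ, ContDiff ℝ 1 f →
      (∀ i, i ∉ S → ∀ x, f (rf (Sum.inl i) x) = f x) →
      ∃ c : ℝ, ∫ x, (f x - c) ^ 2 ∂(mu ρ) ≤ 4 * K * ∫ x, ‖fderiv ℝ f x‖ ^ 2 ∂(mu ρ) := by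
    intro S
    induction S using Finset.induction_on with
    | empty =>
      intro f hf h
      exact evenJ hρ K hK hSt hrf L hLK hL hodd f hf fun i x => h i (Finset.notMem_empty i) x
    | insert i S hi ih =>
      intro f hf h
      refine step hρ (4 * K) (Sum.inl i) (hrf i) (hodd4 i) f hf ?_
      have hg : ContDiff ℝ 1 (fun y => f (rf (Sum.inl i) y)) := cd_rf hf (Sum.inl i)
      have hfe : ContDiff ℝ 1 (fun y => (f y + f (rf (Sum.inl i) y)) / 2) :=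
        (hf.add hg).div_const 2
      refine ih _ hfe ?_
      intro j hj x
      by_cases hji : j = i
      · subst hji
        simp only [rf_rf]
        ring
      · have hj2 : j ∉ insert i S := fun h1 => hj ((Finset.mem_insert.1 h1).resolve_left hji)
        show (f (rf (Sum.inl j) x) + f (rf (Sum.inl i) (rf (Sum.inl j) x))) / 2 =
          (f x + f (rf (Sum.inl i) x)) / 2
        rw [rf_comm (Sum.inl i) (Sum.inl j) x, h j hj2 x, h j hj2 (rf (Sum.inl i) x)]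
  exact main Finset.univ f hf fun i hi x => absurd (Finset.mem_univ i) hi

variable {A B : Type} [Fintype A] [DecidableEq A] [DecidableEq B]
variable {p : {i // DL κ q i} → A} {g : A → B} {ρ : V (κ ⊕ Fin q) → ℝ}

theorem rf_extD (i : {i // DL κ q i}) (x : V (κ ⊕ Fin q)) :
    rf i.1 x = ext (DL κ q) (rf i) x := by
  rw [ext_apply, ← rf_mg, mg_rs]

/-- the Poincaré inequality for the tilted densities -/
theorem innerJ (hρ : GD (ext (DL κ q) '' G p g) ρ) (hLC : LC ρ) (hSw : Sw p g) (m : B → ℕ)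
    (hm : ∀ a, (Finset.univ.filter fun i => p i = a).card = m (g a)) (a : ℝ) (ha : 0 < a)
    (hsupp : ∀ x, ρ x ≠ 0 → rs (DL κ q) x ∈ lev p g m a) (K : ℝ) (hK0 : 0 < K)
    (hLK : cH * a ^ 2 ≤ K) (τ : V (Fin q)) (f : V (κ ⊕ Fin q) → ℝ) (hf : ContDiff ℝ 1 f) :
    ∃ c : ℝ, ∫ x, (f x - c) ^ 2 * tw (fe κ) K τ x ∂(mu ρ) ≤
      5 * K * ∫ x, ‖fderiv ℝ f x‖ ^ 2 * tw (fe κ) K τ x ∂(mu ρ) := by
  have hcH := cH_pos
  have hfix : ∀ e ∈ ext (DL κ q) '' G p g, ∀ j, e (fe κ j) = fe κ j := by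
    rintro _ ⟨e, _, rfl⟩ j
    exact ext_fe e j
  have hD' : GD (ext (DL κ q) '' G p g) (fun x => ρ x * tw (fe κ) K τ x) :=
    gd_tilt hρ (fe κ) hfix K hK0 τ
  have hLC' := lc_tilt hLC (fe κ) K hK0 τ
  have hT' : St (fe κ) K (fun x => ρ x * tw (fe κ) K τ x) := tilt_st hρ (fe κ) K hK0 τ
  have hw0 : ∀ x : V (κ ⊕ Fin q), 0 ≤ tw (fe κ) K τ x := fun x => (Real.exp_pos _).le
  have hwm : Measurable fun x : V (κ ⊕ Fin q) => tw (fe κ) K τ x :=
    (Pool.Agent.TH594.KP.tw_cont _ K τ).measurable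
  have hsupp' : ∀ x, ρ x * tw (fe κ) K τ x ≠ 0 → ρ x ≠ 0 := by
    intro x hx h0
    refine hx ?_
    rw [h0, zero_mul]
  have hrf : ∀ (i : κ) x, ρ (rf (Sum.inl i) x) * tw (fe κ) K τ (rf (Sum.inl i) x) =
      ρ x * tw (fe κ) K τ x := by
    intro i x
    have h1 := rf_extD (κ := κ) (q := q) ⟨Sum.inl i, rfl⟩ x
    simp only at h1
    rw [h1]
    exact hD'.inv _ ⟨rf _, rf_mem _, rfl⟩ x
  obtain ⟨c, hc⟩ := parJ hLC' K hK0 hT' hrf (cH * a ^ 2) hLK (by positivity)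
    (fun i f hf ho => hardyJ (DL κ q) hD' hLC' hSw m hm a ha
      (fun x hx => hsupp x (hsupp' x hx)) ⟨Sum.inl i, rfl⟩ f hf ho) f hf
  rw [integral_mu_mul _ _ _ hρ.nonneg hρ.meas hw0 hwm,
    integral_mu_mul _ _ _ hρ.nonneg hρ.meas hw0 hwm] at hc
  refine ⟨c, hc.trans (mul_le_mul_of_nonneg_right (by linarith) ?_)⟩
  exact integral_nonneg fun x => mul_nonneg (by positivity) (hw0 x)

end Pool.Agent.X43.RF
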