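import Pool.Agent.X43.RF.B

/-!
# Free coordinates: the tails and the bound for densities of bounded support
-/

set_option autoImplicit false

namespace Pool.Agent.X43.RF

open MeasureTheory Set Filter
open scoped ENNReal InnerProductSpace Topology
open Pool.Agent.H212R2.KLS (mu Bdd)
open Pool.Agent.H888R2.KT (LC St tw gs pst hs)
open Pool.Agent.TH594.KP (GD SC)
open Pool.Agent.TH610.RB hiding mu_indicator intg mu_mono gd_map gd_indicator gd_ball gd_smul SC
open Pool.Agent.TH597.HX.Wr (pm pm_apply exch1)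
open Pool.Agent.X43.KR (PI red)

section tail

variable {J : Type} [Fintype J] (D : J → Prop) [DecidablePred D]
variable {A B : Type} [Fintype A] [DecidableEq A] [DecidableEq B]
variable {p : {i // D i} → A} {g : A → B} {ρ : V J → ℝ}

omit [DecidableEq B] in
/-- the marginal on the symmetric coordinates is in the class -/
theorem margJ (hρ : GD (ext D '' G p g) ρ) (hSw : Sw p g) (hb : Bdd ρ) (h1 : mu ρ univ = 1) :
    ∃ ρ' : V {i // D i} → ℝ, RD p g ρ' ∧ Bdd ρ' ∧ (mu ρ).map (rs D) = mu ρ' := by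
  obtain ⟨B', hB'⟩ := Pool.Agent.H888R2.KC.bdd_of_finite ρ hρ.nonneg hρ.meas hρ.logc
    (by rw [h1]; exact ENNReal.one_ne_top)
    (by
      intro h0
      rw [h0] at h1
      simp at h1)
  have hfin := me_lt D ρ hb B' hB'
  have hmeas := me_meas D ρ hρ.meas
  refine ⟨fun x => (me D ρ x).toReal, GD.rd hSw ⟨fun x => ENNReal.toReal_nonneg,
    hmeas.ennreal_toReal, me_logc _ ρ hρ.nonneg hρ.meas hρ.logc hfin, ?_⟩, ?_,
    me_map _ ρ hρ.meas hfin⟩
  · intro e he x
    have h3 : me D ρ (e x) = me D ρ x := by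
      unfold me
      refine lintegral_congr fun z => ?_
      rw [← ext_mg]
      congr 1
      exact hρ.inv _ ⟨e, he, rfl⟩ _
    show (me D ρ (e x)).toReal = (me D ρ x).toReal
    rw [h3]
  · obtain ⟨R, hR⟩ := hb
    refine ⟨R, fun x hx => ?_⟩
    have h3 : me D ρ x = 0 := by
      unfold me
      have : ∀ y : V {i // ¬ D i}, ENNReal.ofReal (ρ (mg D (x, y))) = 0 := by
        intro y
        rw [hR _ (lt_of_lt_of_le hx (le_norm_mg _ x y))]
        simp
      simp [this]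
    show (me D ρ x).toReal = 0
    rw [h3]
    simp

variable [Fintype B]

/-- the tails -/
theorem tailJ (hρ : GD (ext D '' G p g) ρ) (hSw : Sw p g) (hb : Bdd ρ) (h1 : mu ρ univ = 1)
    (m : B → ℕ) (hm : ∀ a, (Finset.univ.filter fun i => p i = a).card = m (g a))
    (hpos : ∀ β, 1 ≤ nb g m β) (T : ℝ) (hT0 : 0 ≤ T)
    (hT : ∑ β, Real.exp (-(T * nb g m β)) ≤ 1) (s : ℝ) (hs : 0 < s)
    (hmom : ∀ θ : V J, ∫ x, ⟪θ, x⟫_ℝ ^ 2 ∂(mu ρ) ≤ s * ‖θ‖ ^ 2) (t : ℝ) (ht : 1 ≤ t) :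
    (mu ρ).real {x | rs D x ∈ lev p g m (t * (540 * (2 + T) * Real.sqrt s))}ᶜ ≤
      Real.exp (-(t / 2)) := by
  classical
  obtain ⟨ρ', hρ', hb', hmap⟩ := margJ D hρ hSw hb h1
  have hmeas : Measurable (rs D) := (LinearMap.continuous_of_finiteDimensional _).measurable
  have h1' : mu ρ' univ = 1 := by
    rw [← hmap, Measure.map_apply hmeas MeasurableSet.univ, preimage_univ, h1]
  have hv' : ∀ i : {i // D i}, ∫ x, x i ^ 2 ∂(mu ρ') ≤ s := by
    intro i
    have hc : Continuous fun x : V {i // D i} => x i ^ 2 := by fun_prop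
    rw [← hmap, integral_map hmeas.aemeasurable hc.aestronglyMeasurable]
    have h2 := hmom (EuclideanSpace.single i.1 1)
    have h3 : ∀ x : V J, ⟪EuclideanSpace.single i.1 (1:ℝ), x⟫_ℝ = x i.1 := by
      intro x
      rw [EuclideanSpace.inner_single_left]
      simp
    simp_rw [h3] at h2
    have h4 : ‖(EuclideanSpace.single i.1 (1:ℝ) : V J)‖ = 1 := by simp
    rw [h4, one_pow, mul_one] at h2
    exact h2
  have key := tails hρ' hb' h1' m hm hpos T hT0 hT s hs hv' t (by linarith)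
  have hcl : MeasurableSet (lev p g m (t * (540 * (2 + T) * Real.sqrt s))) :=
    (lev_closed m _).measurableSet
  have hsub : lev p g m ((1 + T + t) * (540 * Real.sqrt s)) ⊆
      lev p g m (t * (540 * (2 + T) * Real.sqrt s)) := by
    refine lev_mono m ?_
    have h5 : 1 + T + t ≤ t * (2 + T) := by nlinarith
    have h6 : 0 ≤ 540 * Real.sqrt s := by positivity
    calc (1 + T + t) * (540 * Real.sqrt s) ≤ t * (2 + T) * (540 * Real.sqrt s) :=
          mul_le_mul_of_nonneg_right h5 h6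
      _ = _ := by ring
  have h7 : mu ρ {x | rs D x ∈ lev p g m (t * (540 * (2 + T) * Real.sqrt s))}ᶜ ≤
      ENNReal.ofReal (Real.exp (-(t / 2))) := by
    have e1 : {x | rs D x ∈ lev p g m (t * (540 * (2 + T) * Real.sqrt s))}ᶜ =
        rs D ⁻¹' (lev p g m (t * (540 * (2 + T) * Real.sqrt s)))ᶜ := rfl
    rw [e1, ← Measure.map_apply hmeas hcl.compl, hmap]
    exact (measure_mono (compl_subset_compl.2 hsub)).trans key
  rw [measureReal_def]
  exact ENNReal.toReal_le_of_le_ofReal (Real.exp_pos _).le h7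

end tail

section free

variable {κ : Type} [Fintype κ] {q : ℕ}

/-- the free coordinates -/
noncomputable def fr : V (κ ⊕ Fin q) →ₗ[ℝ] V (Fin q) where
  toFun x := WithLp.toLp 2 fun j => x (Sum.inr j)
  map_add' x y := by ext i; simp
  map_smul' c x := by ext i; simp

omit [Fintype κ] in
theorem fr_apply (x : V (κ ⊕ Fin q)) (j : Fin q) : fr x j = x (Sum.inr j) := rfl

theorem norm_sum (x : V (κ ⊕ Fin q)) : ‖x‖ ^ 2 = ∑ i, x (Sum.inl i) ^ 2 + ‖fr x‖ ^ 2 := by
  rw [EuclideanSpace.real_norm_sq_eq, EuclideanSpace.real_norm_sq_eq, Fintype.sum_sum_type]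
  rfl

/-- an isometry of the free coordinates -/
noncomputable def efL (e : V (Fin q) ≃ₗᵢ[ℝ] V (Fin q)) : V (κ ⊕ Fin q) →ₗᵢ[ℝ] V (κ ⊕ Fin q) where
  toFun x := WithLp.toLp 2 (Sum.elim (fun i => x (Sum.inl i)) fun j => e (fr x) j)
  map_add' x y := by
    ext i
    rcases i with i | j
    · rfl
    · show e (fr (x + y)) j = e (fr x) j + e (fr y) j
      rw [map_add, map_add]
      rfl
  map_smul' c x := by
    ext i
    rcases i with i | j
    · rfl
    · show e (fr (c • x)) j = c • e (fr x) j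
      rw [map_smul, map_smul]
      rfl
  norm_map' x := by
    show ‖(WithLp.toLp 2 (Sum.elim (fun i => x (Sum.inl i)) fun j => e (fr x) j) :
      V (κ ⊕ Fin q))‖ = ‖x‖
    rw [← sq_eq_sq₀ (norm_nonneg _) (norm_nonneg _), norm_sum, norm_sum]
    have h1 : fr (WithLp.toLp 2 (Sum.elim (fun i => x (Sum.inl i)) fun j => e (fr x) j) :
        V (κ ⊕ Fin q)) = e (fr x) := by
      ext j
      rfl
    rw [h1, e.norm_map]
    rfl

noncomputable def ef (e : V (Fin q) ≃ₗᵢ[ℝ] V (Fin q)) : V (κ ⊕ Fin q) ≃ₗᵢ[ℝ] V (κ ⊕ Fin q) :=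
  (efL e).toLinearIsometryEquiv rfl

theorem ef_inl (e : V (Fin q) ≃ₗᵢ[ℝ] V (Fin q)) (x : V (κ ⊕ Fin q)) (i : κ) :
    ef e x (Sum.inl i) = x (Sum.inl i) := by
  unfold ef
  rw [LinearIsometry.coe_toLinearIsometryEquiv]
  rfl

theorem fr_ef (e : V (Fin q) ≃ₗᵢ[ℝ] V (Fin q)) (x : V (κ ⊕ Fin q)) :
    fr (ef e x) = e (fr x) := by
  unfold ef
  rw [LinearIsometry.coe_toLinearIsometryEquiv]
  ext j
  rfl

theorem rs_ef (e : V (Fin q) ≃ₗᵢ[ℝ] V (Fin q)) (x : V (κ ⊕ Fin q)) :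
    rs (DL κ q) (ef e x) = rs (DL κ q) x := by
  ext ⟨i, hi⟩
  show ef e x i = x i
  rcases i with i | l
  · exact ef_inl e x i
  · exact absurd hi (by simp)

theorem tw_fe [DecidableEq κ] (K : ℝ) (τ : V (Fin q)) (x : V (κ ⊕ Fin q)) :
    tw (fe κ) K τ x = Real.exp (-(‖fr x - τ‖ ^ 2 / (2 * K))) := by
  unfold tw
  congr 3
  rw [EuclideanSpace.real_norm_sq_eq]
  refine Finset.sum_congr rfl fun j _ => ?_
  unfold fe
  rw [EuclideanSpace.inner_single_left]
  simp [fr_apply]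

/-- invariance of the law of the centre -/
theorem tw_inv [DecidableEq κ] (ρ : V (κ ⊕ Fin q) → ℝ) (hm : Measurable ρ) (K : ℝ)
    (e : V (Fin q) ≃ₗᵢ[ℝ] V (Fin q)) (he : ∀ x, ρ (ef e x) = ρ x) (τ : V (Fin q)) :
    ∫ x, tw (fe κ) K (e τ) x ∂(mu ρ) = ∫ x, tw (fe κ) K τ x ∂(mu ρ) := by
  rw [← Pool.Agent.H888R2.KT.N10x.int_comp hm (ef e) he (fun x => tw (fe κ) K (e τ) x)]
  refine integral_congr_ae (Filter.Eventually.of_forall fun x => ?_)
  show tw (fe κ) K (e τ) (ef e x) = tw (fe κ) K τ x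
  rw [tw_fe, tw_fe, fr_ef, ← map_sub, e.norm_map]

end free

section sc

variable {κ : Type} [Fintype κ] {q : ℕ}
variable {A B : Type} [Fintype A] [DecidableEq A] [Fintype B] [DecidableEq B]

/-- the symmetries -/
def GJ (p : {i // DL κ q i} → A) (g : A → B) (Γ : Set (V (Fin q) ≃ₗᵢ[ℝ] V (Fin q))) :
    Set (V (κ ⊕ Fin q) ≃ₗᵢ[ℝ] V (κ ⊕ Fin q)) :=
  ext (DL κ q) '' G p g ∪ ef '' Γ

end sc

end Pool.Agent.X43.RF
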