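import Pool.Agent.X43.RF.C

/-!
# Free coordinates: the bound for densities of bounded support
-/

set_option autoImplicit false

namespace Pool.Agent.X43.RF

open MeasureTheory Set Filter
open scoped ENNReal InnerProductSpace Topology
open Pool.Agent.H212R2.KLS (mu Bdd)
open Pool.Agent.H888R2.KT (LC St tw gs pst hs)
open Pool.Agent.TH594.KP (GD SC)
open Pool.Agent.TH610.RB hiding mu_indicator intg mu_mono gd_map gd_indicator gd_ball gd_smul SC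
open Pool.Agent.TH597.HX.Wr (pm pm_apply exch1)
open Pool.Agent.X43.KR (PI red)

variable {κ : Type} [Fintype κ] [DecidableEq κ] {q : ℕ}
variable {A B : Type} [Fintype A] [DecidableEq A] [DecidableEq B]
variable {p : {i // DL κ q i} → A} {g : A → B}

omit [Fintype A] [DecidableEq B] in
theorem c1 (Γ : Set (V (Fin q) ≃ₗᵢ[ℝ] V (Fin q))) (ρ : V (κ ⊕ Fin q) → ℝ) (hρ : GD (GJ p g Γ) ρ)
    (K : ℝ) (e : V (Fin q) ≃ₗᵢ[ℝ] V (Fin q)) (he : e ∈ Γ) (τ : V (Fin q)) :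
    ∫ x, tw (fe κ) K (e τ) x ∂(mu ρ) = ∫ x, tw (fe κ) K τ x ∂(mu ρ) :=
  tw_inv ρ hρ.meas K e (fun x => hρ.inv _ (Or.inr ⟨e, he, rfl⟩) x) τ

/-- the level sets -/
def AJ (p : {i // DL κ q i} → A) (g : A → B) (m : B → ℕ) (a : ℝ) : Set (V (κ ⊕ Fin q)) :=
  {x | rs (DL κ q) x ∈ lev p g m a}

omit [DecidableEq κ] in
theorem c2 (m : B → ℕ) (a : ℝ) : IsClosed (AJ p g m a) := by
  have hcr : Continuous (rs (DL κ q)) := LinearMap.continuous_of_finiteDimensional _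
  exact (lev_closed m a).preimage hcr

omit [DecidableEq κ] in
theorem c3 (m : B → ℕ) (a : ℝ) : Convex ℝ (AJ p g m a) :=
  (lev_convex m a).linear_preimage (rs (DL κ q))

omit [DecidableEq κ] in
theorem c4 (Γ : Set (V (Fin q) ≃ₗᵢ[ℝ] V (Fin q))) (m : B → ℕ) (a : ℝ)
    (e : V (κ ⊕ Fin q) ≃ₗᵢ[ℝ] V (κ ⊕ Fin q)) (he : e ∈ GJ p g Γ) (x : V (κ ⊕ Fin q)) :
    e x ∈ AJ p g m a ↔ x ∈ AJ p g m a := by
  rcases he with ⟨e, he, rfl⟩ | ⟨γ, hγ, rfl⟩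
  · unfold AJ
    rw [mem_ofPred_eq, mem_ofPred_eq, rs_ext]
    exact lev_inv m a e he _
  · unfold AJ
    rw [mem_ofPred_eq, mem_ofPred_eq, rs_ef]

omit [DecidableEq κ] in
theorem c5 (m : B → ℕ) (a a' : ℝ) (h : a ≤ a') : AJ p g m a ⊆ AJ p g m a' := by
  have h1 : lev p g m a ⊆ lev p g m a' := lev_mono m h
  intro x hx
  unfold AJ at hx ⊢
  rw [mem_ofPred_eq] at hx ⊢
  exact h1 hx

omit [DecidableEq κ] [Fintype A] [DecidableEq B] in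
theorem c6 (Γ : Set (V (Fin q) ≃ₗᵢ[ℝ] V (Fin q))) (ρ : V (κ ⊕ Fin q) → ℝ) (hρ : GD (GJ p g Γ) ρ) :
    GD (ext (DL κ q) '' G p g) ρ :=
  ⟨hρ.nonneg, hρ.meas, hρ.logc, fun e he => hρ.inv e (Or.inl he)⟩

/-- the constant -/
noncomputable def CF : ℝ := 8400000 * (4 * cH * 540 ^ 2 + 2)

theorem CF_one : 1 ≤ CF := by
  unfold CF
  have := cH_pos
  nlinarith

variable [Fintype B]

theorem c7 (Γ : Set (V (Fin q) ≃ₗᵢ[ℝ] V (Fin q))) (hSw : Sw p g) (m : B → ℕ)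
    (hm : ∀ a, (Finset.univ.filter fun i => p i = a).card = m (g a))
    (hpos : ∀ β, 1 ≤ nb g m β) (T : ℝ) (hT0 : 0 ≤ T)
    (hT : ∑ β, Real.exp (-(T * nb g m β)) ≤ 1) {D : ℝ} (hD : 1 ≤ D)
    (hPI : PI (Γ) D) :
    SC (GJ p g Γ) (40000 * (210 * (cH * (540 * (2 + T)) ^ 2 + 2) * D)) := by
  have hcH := cH_pos
  have ha₀ : (0 : ℝ) < 540 * (2 + T) := by positivity
  have hin : ∀ ρ : V (κ ⊕ Fin q) → ℝ, GD (GJ p g Γ) ρ → LC ρ → ∀ a : ℝ, 0 < a →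
      (∀ x, ρ x ≠ 0 → x ∈ AJ p g m a) →
      ∀ K : ℝ, 0 < K → cH * a ^ 2 ≤ K → ∀ (τ : V (Fin q)) (f : V (κ ⊕ Fin q) → ℝ),
      ContDiff ℝ 1 f →
      ∃ c : ℝ, ∫ x, (f x - c) ^ 2 * tw (fe κ) K τ x ∂(mu ρ) ≤
        5 * K * ∫ x, ‖fderiv ℝ f x‖ ^ 2 * tw (fe κ) K τ x ∂(mu ρ) :=
    fun ρ hρ hLC a ha hsupp K hK hLK τ f hf =>
      innerJ (c6 Γ ρ hρ) hLC hSw m hm a ha hsupp K hK hLK τ f hf
  have htail : ∀ ρ : V (κ ⊕ Fin q) → ℝ, GD (GJ p g Γ) ρ → Bdd ρ → mu ρ univ = 1 →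
      ∀ s : ℝ, 0 < s →
      (∀ θ : V (κ ⊕ Fin q), ∫ x, ⟪θ, x⟫_ℝ ^ 2 ∂(mu ρ) ≤ s * ‖θ‖ ^ 2) → ∀ t : ℝ, 1 ≤ t →
      (mu ρ).real (AJ p g m (t * (540 * (2 + T) * Real.sqrt s)))ᶜ ≤ Real.exp (-(t / 2)) :=
    fun ρ hρ hb h1 s hs hmom t ht =>
      tailJ (DL κ q) (c6 Γ ρ hρ) hSw hb h1 m hm hpos T hT0 hT s hs hmom t ht
  exact red (fe κ) fe_orth (fun ρ hρ K _ e he τ => c1 Γ ρ hρ K e he τ) (AJ p g m) (c2 m) (c3 m)
    (c4 Γ m) (c5 m) hcH.le hin ha₀ htail hD hPI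

/-- the bound for bounded support, second moments -/
theorem coreJ (Γ : Set (V (Fin q) ≃ₗᵢ[ℝ] V (Fin q))) (hSw : Sw p g) (m : B → ℕ)
    (hm : ∀ a, (Finset.univ.filter fun i => p i = a).card = m (g a))
    (hpos : ∀ β, 1 ≤ nb g m β) (T : ℝ) (hT0 : 0 ≤ T)
    (hT : ∑ β, Real.exp (-(T * nb g m β)) ≤ 1) {D : ℝ} (hD : 1 ≤ D)
    (hPI : PI (Γ) D) : SC (GJ p g Γ) (CF * (1 + T) ^ 2 * D) := by
  have hcH := cH_pos
  have key := c7 Γ hSw m hm hpos T hT0 hT hD hPI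
  intro ρ hρ hb h1 s hs hmom f hf hf1
  refine (key ρ hρ hb h1 s hs hmom f hf hf1).trans (mul_le_mul_of_nonneg_right ?_ hs.le)
  unfold CF
  have h2 : (2 + T) ^ 2 ≤ 4 * (1 + T) ^ 2 := by nlinarith
  have h3 : (1 : ℝ) ≤ (1 + T) ^ 2 := by nlinarith
  have h4 : cH * (540 * (2 + T)) ^ 2 + 2 ≤ (4 * cH * 540 ^ 2 + 2) * (1 + T) ^ 2 := by
    have h5 : cH * 540 ^ 2 * (2 + T) ^ 2 ≤ cH * 540 ^ 2 * (4 * (1 + T) ^ 2) :=
      mul_le_mul_of_nonneg_left h2 (by positivity)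
    nlinarith
  have hD0 : 0 ≤ D := by linarith
  calc 40000 * (210 * (cH * (540 * (2 + T)) ^ 2 + 2) * D)
      = 8400000 * (cH * (540 * (2 + T)) ^ 2 + 2) * D := by ring
    _ ≤ 8400000 * ((4 * cH * 540 ^ 2 + 2) * (1 + T) ^ 2) * D := by gcongr
    _ = _ := by ring

end Pool.Agent.X43.RF
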